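import Pool.Agent.TH685.TI.Rom

set_option autoImplicit false
set_option maxHeartbeats 1000000

/-! # Almost admissible decompositions

`n = k + m` is admissible if `6 k - 1` and `p_m` both are the lower members of twin prime pairs. Here
the condition that `q + 2` is prime is replaced by the condition that `q + 2` has at most `r` prime
factors, all above `q ^ (1 / r)`.
-/

namespace Pool.Agent.Results.MP_ea8352_nt.AlmostAdmissible

open Finset Filter Pool.Agent.TH685.TI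
open Pool.Agent.Results.MP_3509fd_nt.NeighboursOfAlmostMissing (AlmostMissing many)

/-- `q` is prime, and `q + 2` has at most `r` prime factors (counted with multiplicity), each of
them, `p` say, with `p ^ r > q`. -/
def AlmostTwin (r q : ℕ) : Prop :=
  q.Prime ∧ (q + 2).primeFactorsList.length ≤ r ∧ ∀ p : ℕ, p.Prime → p ∣ q + 2 → q < p ^ r

theorem twin_of_missing (r X k : ℕ) (hr : 1 ≤ r) (hX : 12 ≤ X) (hk : 1 ≤ k) (hkX : k ≤ 2 * X)
    (h : AlmostMissing r X k) : AlmostTwin (2 * r) (6 * k - 1) := by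
  obtain ⟨h1, h2, h3⟩ := h
  have e : 6 * k - 1 + 2 = 6 * k + 1 := by omega
  refine ⟨h1, ?_, ?_⟩
  · rw [e]
    omega
  · intro p hp hd
    rw [e] at hd
    have h4 := h3 p hp hd
    have hrpos : (0 : ℝ) < r := by exact_mod_cast hr
    have h5 : (X : ℝ) < (p : ℝ) ^ r := by
      calc (X : ℝ) = ((X : ℝ) ^ (1 / (r : ℝ))) ^ r := by
            rw [← Real.rpow_natCast, ← Real.rpow_mul (by positivity), one_div,
              inv_mul_cancel₀ hrpos.ne', Real.rpow_one]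
        _ < (p : ℝ) ^ r := pow_lt_pow_left₀ h4 (by positivity) (by omega)
    have h6 : X < p ^ r := by exact_mod_cast h5
    have h7 : p ^ (2 * r) = p ^ r * p ^ r := by ring
    rw [h7]
    have h8 : 12 * p ^ r ≤ p ^ r * p ^ r := Nat.mul_le_mul_right _ (by omega)
    omega

open Classical in
/-- the indices of the lower members of almost twin pairs are fairly dense -/
theorem density (r : ℕ) (hr : 1 ≤ r) (κ : ℝ) (hκ : 0 < κ)
    (hmany : ∀ᶠ X : ℕ in atTop, κ * X / Real.log X ^ 2 ≤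
      (((Finset.Ioc X (2 * X)).filter (fun m => AlmostMissing r X m)).card : ℝ)) :
    ∃ y0 : ℕ, ∀ y : ℕ, y0 ≤ y → ∃ S : Finset ℕ, S ⊆ Icc 1 y ∧
      (∀ a ∈ S, a ∈ {m : ℕ | AlmostTwin (2 * r) (Nat.nth Nat.Prime (m - 1))}) ∧
      (y : ℝ) ≤ #S * Real.log y ^ 3 := by
  obtain ⟨X₀, hX₀⟩ := eventually_atTop.1 hmany
  have hlogt : Tendsto (fun x : ℕ => Real.log (x : ℝ)) atTop atTop :=
    Real.tendsto_log_atTop.comp tendsto_natCast_atTop_atTop
  obtain ⟨y1, hy1⟩ := eventually_atTop.1 (hlogt.eventually_ge_atTop (24 / κ))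
  refine ⟨max y1 (12 * (X₀ + 12)), fun y hy => ?_⟩
  have hyy1 : y1 ≤ y := (le_max_left _ _).trans hy
  have hy2 : 12 * (X₀ + 12) ≤ y := (le_max_right _ _).trans hy
  obtain ⟨X, hX⟩ : ∃ X : ℕ, X = y / 12 := ⟨_, rfl⟩
  have hX0 : X₀ + 12 ≤ X := by omega
  have hXy : 12 * X ≤ y := by omega
  have hyX : y ≤ 24 * X := by omega
  have hcard := hX₀ X (by omega)
  obtain ⟨K, hK⟩ : ∃ K : Finset ℕ, K = (Finset.Ioc X (2 * X)).filter (fun m => AlmostMissing r X m) :=
    ⟨_, rfl⟩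
  rw [← hK] at hcard
  have hmem : ∀ k ∈ K, (6 * k - 1).Prime ∧ 1 ≤ k ∧ k ≤ 2 * X ∧ AlmostMissing r X k := by
    intro k hk
    rw [hK, mem_filter, mem_Ioc] at hk
    exact ⟨hk.2.1, by omega, hk.1.2, hk.2⟩
  have hnth : ∀ k ∈ K, Nat.nth Nat.Prime (Nat.count Nat.Prime (6 * k - 1) + 1 - 1) = 6 * k - 1 := by
    intro k hk
    rw [Nat.add_sub_cancel]
    exact Nat.nth_count (hmem k hk).1
  refine ⟨K.image (fun k => Nat.count Nat.Prime (6 * k - 1) + 1), ?_, ?_, ?_⟩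
  · intro a ha
    obtain ⟨k, hk, rfl⟩ := mem_image.1 ha
    obtain ⟨-, h2, h3, -⟩ := hmem k hk
    rw [mem_Icc]
    have h4 : Nat.count Nat.Prime (6 * k - 1) ≤ 6 * k - 1 := Nat.count_le _
    omega
  · intro a ha
    obtain ⟨k, hk, rfl⟩ := mem_image.1 ha
    obtain ⟨-, h2, h3, h4⟩ := hmem k hk
    show AlmostTwin (2 * r) (Nat.nth Nat.Prime (Nat.count Nat.Prime (6 * k - 1) + 1 - 1))
    rw [hnth k hk]
    exact twin_of_missing r X k hr (by omega) h2 h3 h4
  · have hinj : Set.InjOn (fun k => Nat.count Nat.Prime (6 * k - 1) + 1) (K : Set ℕ) := by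
      intro a ha b hb hab
      have h1 := hnth a ha
      have h2 := hnth b hb
      have h3 := (hmem a ha).2.1
      have h4 := (hmem b hb).2.1
      simp only at hab
      rw [hab] at h1
      omega
    rw [card_image_of_injOn hinj]
    have hXr : (12 : ℝ) ≤ X := by exact_mod_cast (by omega : 12 ≤ X)
    have hyr : (y : ℝ) ≤ 24 * X := by exact_mod_cast hyX
    have hXyr : (X : ℝ) ≤ y := by exact_mod_cast (by omega : X ≤ y)
    have hlogX : 0 < Real.log X := Real.log_pos (by linarith)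
    have hlogXy : Real.log X ≤ Real.log y := Real.log_le_log (by linarith) hXyr
    have hly : 24 / κ ≤ Real.log y := hy1 y hyy1
    rw [div_le_iff₀ (by positivity)] at hcard
    have h1 : Real.log X ^ 2 ≤ Real.log y ^ 2 := pow_le_pow_left₀ hlogX.le hlogXy 2
    have h2 : κ * X ≤ #K * Real.log y ^ 2 :=
      hcard.trans (mul_le_mul_of_nonneg_left h1 (Nat.cast_nonneg _))
    have h3 : 0 ≤ (#K : ℝ) * Real.log y ^ 2 := by positivity
    calc (y : ℝ) ≤ 24 * X := hyr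
      _ = 24 / κ * (κ * X) := by field_simp
      _ ≤ 24 / κ * (#K * Real.log y ^ 2) := by gcongr
      _ ≤ Real.log y * (#K * Real.log y ^ 2) := mul_le_mul_of_nonneg_right hly h3
      _ = #K * Real.log y ^ 3 := by ring

/-- **Theorem.** There are `r` and `c > 0` such that for all large `X` at least
`c X / (log log log log X)²` of the integers `n` with `X < n ≤ 3 X` have a decomposition `n = k + m`
with `k, m ≥ 1` and `m ≤ (log X)² (log log X)⁴` in which `6 k - 1` and `p_m` are both prime and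
`6 k + 1` and `p_m + 2` both have at most `r` prime factors (all of them large). -/
theorem result : ∃ r : ℕ, ∃ c : ℝ, 0 < c ∧ ∃ X₀ : ℕ, ∀ X : ℕ, X₀ ≤ X →
    c * X / Real.log (Real.log (Real.log (Real.log X))) ^ 2 ≤
      Set.ncard {n : ℕ | X < n ∧ n ≤ 3 * X ∧ ∃ k m : ℕ, 1 ≤ k ∧ 1 ≤ m ∧ k + m = n ∧
        (m : ℝ) ≤ Real.log X ^ 2 * Real.log (Real.log X) ^ 4 ∧
        AlmostTwin r (6 * k - 1) ∧ AlmostTwin r (Nat.nth Nat.Prime (m - 1))} := by
  obtain ⟨r0, hr0, hrom⟩ := romanoff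
  obtain ⟨r2, hr2, hmany⟩ := many
  obtain ⟨r, hr⟩ : ∃ r : ℕ, r = max r0 r2 := ⟨_, rfl⟩
  have h1 : r0 ≤ r := by rw [hr]; exact le_max_left _ _
  have h2 : r2 ≤ r := by rw [hr]; exact le_max_right _ _
  obtain ⟨κ, hκ, hmany⟩ := hmany r h2
  obtain ⟨c, hc, X₀, hX₀⟩ := hrom r h1 3 {m : ℕ | AlmostTwin (2 * r) (Nat.nth Nat.Prime (m - 1))}
    (density r (by omega) κ hκ hmany)
  refine ⟨2 * r, c, hc, max X₀ 12, fun X hX => ?_⟩
  obtain ⟨I, hI1, hI2, hI3⟩ := hX₀ X ((le_max_left _ _).trans hX)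
  have hX12 : 12 ≤ X := (le_max_right _ _).trans hX
  refine hI3.trans ?_
  have hfin : {n : ℕ | X < n ∧ n ≤ 3 * X ∧ ∃ k m : ℕ, 1 ≤ k ∧ 1 ≤ m ∧ k + m = n ∧
        (m : ℝ) ≤ Real.log X ^ 2 * Real.log (Real.log X) ^ 4 ∧
        AlmostTwin (2 * r) (6 * k - 1) ∧ AlmostTwin (2 * r) (Nat.nth Nat.Prime (m - 1))}.Finite :=
    (Set.finite_Iic (3 * X)).subset (fun n hn => hn.2.1)
  have hsub : (I : Set ℕ) ⊆ {n : ℕ | X < n ∧ n ≤ 3 * X ∧ ∃ k m : ℕ, 1 ≤ k ∧ 1 ≤ m ∧ k + m = n ∧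
        (m : ℝ) ≤ Real.log X ^ 2 * Real.log (Real.log X) ^ 4 ∧
        AlmostTwin (2 * r) (6 * k - 1) ∧ AlmostTwin (2 * r) (Nat.nth Nat.Prime (m - 1))} := by
    intro n hn
    have h3 := mem_Ioc.1 (hI1 hn)
    obtain ⟨k, m, hkm, hmM, hm1, hmL, hk1, hk2, hkA⟩ := hI2 n hn
    exact ⟨h3.1, h3.2, k, m, by omega, hm1, hkm, hmL,
      twin_of_missing r X k (by omega) hX12 (by omega) hk2 hkA, hmM⟩
  have h5 := Set.ncard_le_ncard hsub hfin
  rw [Set.ncard_coe_finset] at h5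
  exact_mod_cast h5

end Pool.Agent.Results.MP_ea8352_nt.AlmostAdmissible
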