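import Pool.Agent.TH685.TI.Almost

set_option autoImplicit false
set_option maxHeartbeats 1000000

/-! # Admissible decompositions: the first indices of twin primes do not suffice -/

namespace Pool.Agent.Results.MP_ea8352_nt.FirstIndices

open Finset Pool.Agent.TH685.TI

theorem logs (c₀ : ℝ) (hc₀ : 0 < c₀) : ∃ X₀ : ℕ, ∀ X : ℕ, X₀ ≤ X →
    0 < Real.log X ∧ 0 < Real.log (Real.log X) ∧ 3 ≤ c₀ * Real.log X ^ 2 ∧
    Real.log (Real.log X) / 2 ≤ Real.log (c₀ * Real.log X ^ 2) := by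
  refine ⟨⌈Real.exp (max 3 (3 / c₀))⌉₊, fun X hX => ?_⟩
  have hX1 : Real.exp (max 3 (3 / c₀)) ≤ X := Nat.ceil_le.1 hX
  have hL : max 3 (3 / c₀) ≤ Real.log X := by
    rw [← Real.log_exp (max 3 (3 / c₀))]
    exact Real.log_le_log (Real.exp_pos _) hX1
  obtain ⟨L, hLd⟩ : ∃ L : ℝ, L = Real.log X := ⟨_, rfl⟩
  rw [← hLd] at hL ⊢
  have hL3 : 3 ≤ L := (le_max_left _ _).trans hL
  have hLc : 3 ≤ c₀ * L := by
    have h1 : 3 / c₀ ≤ L := (le_max_right _ _).trans hL
    rw [div_le_iff₀ hc₀] at h1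
    linarith
  have hl : 1 ≤ Real.log L := by
    rw [Real.le_log_iff_exp_le (by linarith)]
    have := Real.exp_one_lt_d9
    linarith
  have h1 : L ≤ c₀ * L ^ 2 := by nlinarith
  refine ⟨by linarith, by linarith, by linarith, ?_⟩
  have h2 := Real.log_le_log (by linarith) h1
  linarith

/-- **Theorem.** For every `ε > 0` there is a constant `c > 0` such that for all large `X` and all `Y`,
all but at most `ε X` of the integers `n` with `Y < n ≤ Y + X` have the following property: every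
admissible decomposition `n = k + m` has

* more than `c (log X)²` indices `j < m` with `p_j`, `p_j + 2` both prime;
* `m > c (log X)² log log X`. -/
theorem result (ε : ℝ) (hε : 0 < ε) : ∃ c : ℝ, 0 < c ∧ ∃ X₀ : ℕ, ∀ X : ℕ, X₀ ≤ X → ∀ Y : ℕ,
    ∃ B : Finset ℕ, (B.card : ℝ) ≤ ε * X ∧ ∀ n : ℕ, Y < n → n ≤ Y + X → n ∉ B →
      ∀ k m : ℕ, 1 ≤ k → 1 ≤ m → k + m = n → (6 * k - 1).Prime → (6 * k + 1).Prime →
        (Nat.nth Nat.Prime (m - 1) + 2).Prime →
        c * Real.log X ^ 2 < (((Finset.Ico 1 m).filter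
          (fun j => (Nat.nth Nat.Prime (j - 1) + 2).Prime)).card : ℝ) ∧
        c * (Real.log X ^ 2 * Real.log (Real.log X)) < m := by
  obtain ⟨C, hC, X₁, hX₁, hcov⟩ := cover_few
  obtain ⟨c₀, hc₀d⟩ : ∃ c₀ : ℝ, c₀ = ε / (2 * C) := ⟨_, rfl⟩
  have hc₀ : 0 < c₀ := by rw [hc₀d]; positivity
  obtain ⟨X₂, hlog⟩ := logs c₀ hc₀
  obtain ⟨c₁, hc₁, hind⟩ := index_large
  refine ⟨min c₀ (c₁ * c₀ / 4), by positivity, max X₁ X₂, fun X hX Y => ?_⟩
  have hX3 : 3 ≤ X := hX₁.trans ((le_max_left _ _).trans hX)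
  have hXr : (0 : ℝ) < X := by
    have : (3 : ℝ) ≤ X := by exact_mod_cast hX3
    linarith
  obtain ⟨hL, hl, hB3, hlB⟩ := hlog X ((le_max_right _ _).trans hX)
  obtain ⟨L, hLd⟩ : ∃ L : ℝ, L = Real.log X := ⟨_, rfl⟩
  have hcov' := hcov X ((le_max_left _ _).trans hX) Y
  rw [← hLd] at hL hl hB3 hlB hcov' ⊢
  -- the first indices
  obtain ⟨S, hS⟩ : ∃ S : Finset ℕ, S = (range (Y + X + 1)).filter (fun m => 1 ≤ m ∧
    (Nat.nth Nat.Prime (m - 1) + 2).Prime ∧ ((tw m).card : ℝ) ≤ c₀ * L ^ 2) := ⟨_, rfl⟩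
  have hScard : (S.card : ℝ) ≤ c₀ * L ^ 2 + 1 := by
    have h1 : S.card ≤ (range (⌊c₀ * L ^ 2⌋₊ + 1)).card := by
      have key : ∀ i j : ℕ, 1 ≤ i → (Nat.nth Nat.Prime (i - 1) + 2).Prime → i < j →
          (tw i).card < (tw j).card := by
        intro i j hi hip hij
        apply card_lt_card
        rw [Finset.ssubset_iff_of_subset]
        · refine ⟨i, ?_, ?_⟩
          · rw [tw, mem_filter, mem_Ico]
            exact ⟨⟨hi, hij⟩, hip⟩
          · rw [tw, mem_filter, mem_Ico]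
            rintro ⟨⟨-, h⟩, -⟩
            omega
        · intro a ha
          rw [tw, mem_filter, mem_Ico] at ha ⊢
          exact ⟨⟨ha.1.1, by omega⟩, ha.2⟩
      apply card_le_card_of_injOn (fun t => (tw t).card)
      · intro t ht
        rw [mem_coe, hS, mem_filter] at ht
        rw [mem_coe, mem_range]
        have := Nat.le_floor ht.2.2.2
        show (tw t).card < ⌊c₀ * L ^ 2⌋₊ + 1
        omega
      · intro t ht t' ht' heq
        rw [mem_coe, hS, mem_filter] at ht ht'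
        have heq' : (tw t).card = (tw t').card := heq
        rcases lt_trichotomy t t' with h | h | h
        · have := key t t' ht.2.1 ht.2.2.1 h
          omega
        · exact h
        · have := key t' t ht'.2.1 ht'.2.2.1 h
          omega
    rw [card_range] at h1
    have h2 : (S.card : ℝ) ≤ (⌊c₀ * L ^ 2⌋₊ : ℝ) + 1 := by exact_mod_cast h1
    have h3 := Nat.floor_le (by positivity : 0 ≤ c₀ * L ^ 2)
    linarith
  obtain ⟨B, hB, hBn⟩ := hcov' S
  refine ⟨B, hB.trans ?_, ?_⟩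
  · have h1 : (S.card : ℝ) ≤ 2 * (c₀ * L ^ 2) := by linarith
    have h2 : 0 ≤ (X : ℝ) / L ^ 2 := by positivity
    calc C * (S.card * ((X : ℝ) / L ^ 2)) ≤ C * (2 * (c₀ * L ^ 2) * ((X : ℝ) / L ^ 2)) := by gcongr
      _ = (2 * C * c₀) * X := by field_simp
      _ = ε * X := by rw [hc₀d]; field_simp
  · intro n hn1 hn2 hnB k m hk hm hkm h1 h2 h3
    have hmS := hBn n hn1 hn2 hnB k m hk hkm h1 h2
    have h4 : c₀ * L ^ 2 < (tw m).card := by
      by_contra hcon
      push Not at hcon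
      apply hmS
      rw [hS, mem_filter, mem_range]
      exact ⟨by omega, hm, h3, hcon⟩
    have hpos : 0 < L ^ 2 := by positivity
    have hpos3 : 0 < L ^ 2 * Real.log L := by positivity
    refine ⟨?_, ?_⟩
    · have h6 : min c₀ (c₁ * c₀ / 4) * L ^ 2 ≤ c₀ * L ^ 2 :=
        mul_le_mul_of_nonneg_right (min_le_left _ _) hpos.le
      exact lt_of_le_of_lt h6 h4
    · have h7 := hind m hm _ hB3 h4
      have h8 : c₁ * (c₀ * L ^ 2 * (Real.log L / 2)) ≤
          c₁ * (c₀ * L ^ 2 * Real.log (c₀ * L ^ 2)) := by gcongr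
      have h9 : min c₀ (c₁ * c₀ / 4) * (L ^ 2 * Real.log L) ≤
          (c₁ * c₀ / 4) * (L ^ 2 * Real.log L) :=
        mul_le_mul_of_nonneg_right (min_le_right _ _) hpos3.le
      have h10 : c₁ * (c₀ * L ^ 2 * (Real.log L / 2)) =
          2 * ((c₁ * c₀ / 4) * (L ^ 2 * Real.log L)) := by ring
      have h11 : 0 < (c₁ * c₀ / 4) * (L ^ 2 * Real.log L) := by positivity
      linarith

end Pool.Agent.Results.MP_ea8352_nt.FirstIndices
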